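import Pool.Agent.V11249.NP.Reg
import Pool.Agent.V11249.NP.Chain

/-!
# Cunningham chains of almost primes: regular windows in all short intervals

For every length `l` there are `r` and `c₁, c₂, K, κ > 0` such that in every interval `(X, X + Y]` with
`X ^ θ ≤ Y ≤ X` at least `κ Y` of the integers `n` are regular: every window `(a, b]` around `n` of length between
`K log ^ l X` and `Y` contains between `c₁ (b - a) / log ^ l X` and `c₂ (b - a) / log ^ l X` integers `m` for which all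
the numbers `2 ^ i (m + 1) - 1`, `i < l`, have at most `r` prime factors, all larger than `X ^ (1 / r)`; moreover, at
all but boundedly many dyadic scales these `m` have a constant density around `n`, up to an error `δ`.
-/

set_option autoImplicit false

open Finset Filter Polynomial

namespace Pool.Agent.Results.MP_c77da8_nt.RegularWindows

/-- a chain of almost primes: the `l` numbers `2 ^ i (m + 1) - 1` have at most `r` prime factors (with multiplicity),
all of them larger than `z` -/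
def AlmostChain (l r : ℕ) (z : ℝ) (m : ℕ) : Prop :=
  ∀ i < l, (2 ^ i * (m + 1) - 1).primeFactorsList.length ≤ r ∧
    ∀ p : ℕ, p.Prime → p ∣ 2 ^ i * (m + 1) - 1 → z < p

open Classical in
/-- the number of the `m` in `(a, b]` at which a chain of almost primes starts, all prime factors being larger than
`X ^ (1 / r)` -/
noncomputable def cnt (l r X a b : ℕ) : ℕ :=
  ((Ioc a b).filter (fun m => AlmostChain l r ((X : ℝ) ^ (1 / (r : ℝ))) m)).card

/-- all windows `(a, b]` around `n`, of length between `K log ^ l X` and `Y`, contain the right order of such `m` -/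
def Regular (l r : ℕ) (c₁ c₂ K : ℝ) (X Y n : ℕ) : Prop :=
  ∀ a b : ℕ, a ≤ n → n ≤ b → K * Real.log X ^ l ≤ (b : ℝ) - a → (b : ℝ) - a ≤ Y →
    c₁ * ((b : ℝ) - a) / Real.log X ^ l ≤ (cnt l r X a b : ℝ) ∧
    (cnt l r X a b : ℝ) ≤ c₂ * ((b : ℝ) - a) / Real.log X ^ l

/-- the density is constant on `[n - 2 ^ j, n + 2 ^ j]`, up to `δ` -/
def Constant (l r : ℕ) (c₁ c₂ δ : ℝ) (X n j : ℕ) : Prop :=
  ∃ lam : ℝ, c₁ ≤ lam ∧ lam ≤ c₂ ∧ ∀ u v : ℕ, n ≤ u + 2 ^ j → u ≤ v → v ≤ n + 2 ^ j →
    |(cnt l r X u v : ℝ) - lam * ((v : ℝ) - u) / Real.log X ^ l| ≤ δ * 2 ^ j / Real.log X ^ l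

open Classical in
/-- the number of the scales `2 ^ j` between `log ^ l X` and `Y` at which the density is not constant -/
noncomputable def badScales (l r : ℕ) (c₁ c₂ δ : ℝ) (X Y n : ℕ) : ℕ :=
  ((range (Nat.log 2 Y + 1)).filter (fun j => Real.log X ^ l ≤ (2 : ℝ) ^ j ∧ ¬ Constant l r c₁ c₂ δ X n j)).card

open Pool.Agent.V11249.NP.Chain (f ev_one sys)

theorem iff_almost (l r : ℕ) (z : ℝ) (m : ℕ) : AlmostChain l r z m ↔ Pool.Agent.TH464.PW.Almost (f l 1) r z m := by
  unfold AlmostChain Pool.Agent.TH464.PW.Almost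
  constructor
  · intro h i
    obtain ⟨h1, h2⟩ := h i i.isLt
    rw [ev_one, Int.natAbs_natCast]
    exact ⟨h1, fun p hp hd => h2 p hp (Int.natCast_dvd_natCast.1 hd)⟩
  · intro h i hi
    obtain ⟨h1, h2⟩ := h ⟨i, hi⟩
    rw [ev_one, Int.natAbs_natCast] at h1
    refine ⟨h1, fun p hp hd => h2 p hp ?_⟩
    rw [ev_one]
    exact Int.natCast_dvd_natCast.2 hd

open Classical in
/-- **Regular windows for chains.** For every length `l ≥ 1` and `0 < θ ≤ 1` there are `r` and `c₁, c₂, K, κ > 0` such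
that for every `δ > 0` there is `B` such that for all large `X` and all `X ^ θ ≤ Y ≤ X`: at least `κ Y` of the `n` in
`(X, X + Y]` are regular and have at most `B` scales at which the density is not constant up to `δ`. -/
theorem result (l : ℕ) (hl : 1 ≤ l) (θ : ℝ) (hθ : 0 < θ) (hθ1 : θ ≤ 1) :
    ∃ (r : ℕ) (c₁ c₂ K κ : ℝ), 0 < c₁ ∧ 0 < c₂ ∧ 0 < K ∧ 0 < κ ∧ ∀ δ : ℝ, 0 < δ → ∃ B : ℕ,
      ∀ᶠ X : ℕ in atTop, ∀ Y : ℕ, (X : ℝ) ^ θ ≤ Y → Y ≤ X →
        κ * Y ≤ (((Ioc X (X + Y)).filter (fun n =>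
          Regular l r c₁ c₂ K X Y n ∧ badScales l r c₁ c₂ δ X Y n ≤ B)).card : ℝ) := by
  have h := Pool.Agent.V11249.NP.reg_win (g := l) (by omega) (f l 1) (sys l 1 (Or.inl rfl)) (AlmostChain l)
    (iff_almost l) θ hθ hθ1
  exact h

end Pool.Agent.Results.MP_c77da8_nt.RegularWindows
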